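import Mathlib
import Pool.Agent.Helper802.ODS.Main

set_option autoImplicit false

open MeasureTheory Filter
open Pool.Agent.Helper802.OD

noncomputable section

namespace Pool.Agent.Results.MP_84c575_an.SmoothOdometer

/-- The odometer transformation `x ↦ x + 1`. -/
def odoMap (q : ℕ → ℕ) (hq : ∀ k, q k ∣ q (k + 1)) : odometer q hq → odometer q hq :=
  fun x => x + odoOne q hq

/-- `(Y, ν, S)` is smoothly realized on the torus `𝕋ⁿ = ℝⁿ/ℤⁿ`: there is a `C^∞` diffeomorphism
`f` of `𝕋ⁿ` preserving Lebesgue measure `λ` such that `(𝕋ⁿ, λ, f)` is isomorphic to `(Y, ν, S)`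
modulo null sets. -/
def SmoothlyRealizedOn (n : ℕ) {Y : Type} [MeasurableSpace Y] (ν : Measure Y) (S : Y → Y) :
    Prop :=
  ∃ f : (Fin n → UnitAddCircle) ≃ (Fin n → UnitAddCircle),
    SmoothTorusMap f ∧ SmoothTorusMap f.symm ∧ MeasurePreserving f volume volume ∧
      MeasureIso volume f ν S

/-- There is a non-periodic odometer (scale `q` with `q k ∣ q (k + 1)` and `q k → ∞`) which is
smoothly realized, on the two-dimensional torus. -/
theorem result :
    ∃ (q : ℕ → ℕ) (hq : ∀ k, q k ∣ q (k + 1)) (_ : ∀ k, NeZero (q k)),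
      Tendsto q atTop atTop ∧ SmoothlyRealizedOn 2 (odoMeasure q hq) (odoMap q hq) :=
  main

end Pool.Agent.Results.MP_84c575_an.SmoothOdometer
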